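import Mathlib

/-!
# MP_8f3806_al: graph powers of groups with maximal gap
-/

set_option autoImplicit false

namespace Pool.Agent.Results.MP_8f3806_al.TwinFreeGap

open scoped commutatorElement

open Classical in
/-- The element `g ^ S` of `G ^ V`: `g` at the vertices of `S` and `1` elsewhere. -/
noncomputable def gpow {G : Type*} [Group G] {V : Type*} (g : G) (S : Set V) : V → G :=
  fun w => if w ∈ S then g else 1

/-- The closed neighbourhood of `v`. -/
def nbhd {V : Type*} (Γ : SimpleGraph V) (v : V) : Set V := {w | w = v ∨ Γ.Adj v w}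

/-- The group `G ^ Γ`, generated by the elements `g ^ v`. -/
noncomputable def graphPower (G : Type*) [Group G] {V : Type*} (Γ : SimpleGraph V) :
    Subgroup (V → G) :=
  Subgroup.closure {x | ∃ (g : G) (v : V), x = gpow g (nbhd Γ v)}

/-- The group `Comm_b(G, Γ)`, generated by the commutators `[g ^ v, h ^ w]`. -/
noncomputable def commB (G : Type*) [Group G] {V : Type*} (Γ : SimpleGraph V) :
    Subgroup (V → G) :=
  Subgroup.closure {x | ∃ (g h : G) (v w : V), x = ⁅gpow g (nbhd Γ v), gpow h (nbhd Γ w)⁆}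

/-- `Γ` is `G`-RA: the full direct power of `[G, G]` is contained in `G ^ Γ`. -/
def IsRA (G : Type*) [Group G] {V : Type*} (Γ : SimpleGraph V) : Prop :=
  Subgroup.pi Set.univ (fun _ : V => commutator G) ≤ graphPower G Γ

open Classical in
/-- The RA matrix: its rows are the indicator vectors of `N[u] ∩ N[v]`. -/
noncomputable def raMatrix {V : Type*} (Γ : SimpleGraph V) : Matrix (V × V) V ℤ :=
  Matrix.of fun p w => if w ∈ nbhd Γ p.1 ∩ nbhd Γ p.2 then 1 else 0

/-- `d` is the sequence of elementary divisors of `C`: `d i` divides `d j` for `i ≤ j` and, for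
some unimodular `P` and `Q`, the matrix `P * C * Q` is diagonal with the entries `d`. -/
def IsElementaryDivisors {V : Type*} [Fintype V] [DecidableEq V] (C : Matrix (V × V) V ℤ)
    (d : Fin (Fintype.card V) → ℕ) : Prop :=
  (∀ i j, i ≤ j → d i ∣ d j) ∧
    ∃ (e : V ≃ Fin (Fintype.card V)) (f : V ↪ V × V) (P : Matrix (V × V) (V × V) ℤ)
      (Q : Matrix V V ℤ), IsUnit P.det ∧ IsUnit Q.det ∧
      P * C * Q = Matrix.of fun r v => if r = f v then ((d (e v) : ℕ) : ℤ) else 0

/-! ### The affine groups -/

/-- The affine group of the line over `F`. -/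
@[ext] structure Aff (F : Type) [Field F] where
  /-- the linear part -/
  a : Fˣ
  /-- the translation part -/
  b : F

namespace Aff

variable {F : Type} [Field F]

instance : Mul (Aff F) := ⟨fun g h => ⟨g.a * h.a, g.b + g.a * h.b⟩⟩
instance : One (Aff F) := ⟨⟨1, 0⟩⟩
instance : Inv (Aff F) := ⟨fun g => ⟨g.a⁻¹, -(((g.a⁻¹ : Fˣ) : F) * g.b)⟩⟩

theorem mul_a (g h : Aff F) : (g * h).a = g.a * h.a := rfl
theorem mul_b (g h : Aff F) : (g * h).b = g.b + g.a * h.b := rfl
theorem one_a : (1 : Aff F).a = 1 := rfl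
theorem one_b : (1 : Aff F).b = 0 := rfl
theorem inv_a (g : Aff F) : (g⁻¹).a = g.a⁻¹ := rfl
theorem inv_b (g : Aff F) : (g⁻¹).b = -(((g.a⁻¹ : Fˣ) : F) * g.b) := rfl

instance : Group (Aff F) where
  mul_assoc a b c := by
    ext1
    · rw [mul_a, mul_a, mul_a, mul_a, mul_assoc]
    · rw [mul_b, mul_b, mul_b, mul_b, mul_a, Units.val_mul]; ring
  one_mul a := by
    ext1
    · rw [mul_a, one_a, one_mul]
    · rw [mul_b, one_b, one_a, Units.val_one, one_mul, zero_add]
  mul_one a := by
    ext1
    · rw [mul_a, one_a, mul_one]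
    · rw [mul_b, one_b, mul_zero, add_zero]
  inv_mul_cancel a := by
    ext1
    · rw [mul_a, inv_a, one_a, inv_mul_cancel]
    · rw [mul_b, inv_b, inv_a, one_b, neg_add_cancel]

/-- The translation by `t`. -/
def tr (t : F) : Aff F := ⟨1, t⟩

theorem tr_add (s t : F) : tr (s + t) = tr s * tr t := by
  ext1
  · rw [mul_a]; exact (mul_one (1 : Fˣ)).symm
  · rw [mul_b]
    show s + t = s + ((1 : Fˣ) : F) * t
    rw [Units.val_one, one_mul]

theorem tr_zero : tr (0 : F) = 1 := rfl

theorem tr_injective : Function.Injective (tr : F → Aff F) := fun _ _ h => congrArg Aff.b h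

theorem comm_tr (l : Fˣ) (t : F) : ⁅(⟨l, 0⟩ : Aff F), tr t⁆ = tr (((l : F) - 1) * t) := by
  rw [commutatorElement_def]
  ext1
  · rw [mul_a, mul_a, mul_a, inv_a, inv_a]
    show l * 1 * l⁻¹ * 1⁻¹ = 1
    rw [mul_one, mul_inv_cancel, inv_one, one_mul]
  · rw [mul_b, mul_b, mul_b, inv_b, inv_b, mul_a, mul_a, inv_a]
    show 0 + (l : F) * t + ((l * 1 : Fˣ) : F) * -(((l⁻¹ : Fˣ) : F) * 0) +
      ((l * 1 * l⁻¹ : Fˣ) : F) * -(((1⁻¹ : Fˣ) : F) * t) = ((l : F) - 1) * t
    rw [mul_one, mul_inv_cancel, inv_one, Units.val_one]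
    ring

theorem comm_a (g h : Aff F) : (⁅g, h⁆).a = 1 := by
  rw [commutatorElement_def, mul_a, mul_a, mul_a, inv_a, inv_a, mul_comm g.a h.a,
    mul_inv_cancel_right, mul_inv_cancel]

theorem eq_tr {g : Aff F} (h : g.a = 1) : g = tr g.b := by
  ext1
  · exact h
  · rfl

theorem mem_commutator_iff {l : Fˣ} (hl : l ≠ 1) (g : Aff F) :
    g ∈ commutator (Aff F) ↔ g.a = 1 := by
  constructor
  · intro h
    let K : Subgroup (Aff F) :=
      { carrier := {g | g.a = 1}
        mul_mem' := fun {x y} hx hy => by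
          have hx' : x.a = 1 := hx
          have hy' : y.a = 1 := hy
          show (x * y).a = 1
          rw [mul_a, hx', hy', one_mul]
        one_mem' := rfl
        inv_mem' := fun {x} hx => by
          have hx' : x.a = 1 := hx
          show (x⁻¹).a = 1
          rw [inv_a, hx', inv_one] }
    have hK : commutator (Aff F) ≤ K := by
      rw [commutator_def, Subgroup.commutator_le]
      intro x _ y _
      exact comm_a x y
    exact hK h
  · intro h
    have hl' : (l : F) - 1 ≠ 0 := by
      rw [sub_ne_zero]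
      intro h1
      exact hl (Units.ext h1)
    have : g = ⁅(⟨l, 0⟩ : Aff F), tr (g.b / ((l : F) - 1))⁆ := by
      rw [comm_tr, mul_div_cancel₀ _ hl']
      exact eq_tr h
    rw [this, commutator_def]
    exact Subgroup.commutator_mem_commutator (Subgroup.mem_top _) (Subgroup.mem_top _)

instance [Finite F] : Finite (Aff F) := by
  have : Function.Injective (fun g : Aff F => (g.a, g.b)) := by
    intro x y h
    ext1
    · exact congrArg Prod.fst h
    · exact congrArg Prod.snd h
  exact Finite.of_injective _ this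

end Aff

/-! ### Elements `g ^ S` -/

section gpow

variable {G : Type*} [Group G] {V : Type*}

theorem gpow_comm (g h : G) (A B : Set V) : ⁅gpow g A, gpow h B⁆ = gpow ⁅g, h⁆ (A ∩ B) := by
  funext w
  show ⁅gpow g A w, gpow h B w⁆ = _
  unfold gpow
  by_cases hA : w ∈ A <;> by_cases hB : w ∈ B <;> simp [hA, hB]

theorem gpow_mul (g h : G) (A : Set V) : gpow (g * h) A = gpow g A * gpow h A := by
  funext w
  show gpow (g * h) A w = gpow g A w * gpow h A w
  unfold gpow
  by_cases hA : w ∈ A <;> simp [hA]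

theorem gpow_inter_diff (g : G) (A B : Set V) : gpow g A * gpow g⁻¹ (A ∩ B) = gpow g (A \ B) := by
  funext w
  show gpow g A w * gpow g⁻¹ (A ∩ B) w = _
  unfold gpow
  by_cases hA : w ∈ A <;> by_cases hB : w ∈ B <;> simp [hA, hB]

theorem mem_nbhd_comm (Γ : SimpleGraph V) (u v : V) : u ∈ nbhd Γ v ↔ v ∈ nbhd Γ u := by
  unfold nbhd
  simp only [Set.mem_ofPred_eq]
  rw [eq_comm, Γ.adj_comm]

theorem self_mem_nbhd (Γ : SimpleGraph V) (u : V) : u ∈ nbhd Γ u := Or.inl rfl

end gpow

/-- If a nonabelian group `G` exists for which `Γ` is `G`-RA then `Γ` has no closed twins. -/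
theorem twin_free_of_RA {G : Type} [Group G] (hG : ¬ ∀ a b : G, a * b = b * a) {V : Type}
    {Γ : SimpleGraph V} (h : IsRA G Γ) (u v : V) (huv : nbhd Γ u = nbhd Γ v) : u = v := by
  classical
  by_contra hne
  push Not at hG
  obtain ⟨a, b, hab⟩ := hG
  have hc : ⁅a, b⁆ ≠ 1 := fun h1 => hab (commutatorElement_eq_one_iff_mul_comm.1 h1)
  let K : Subgroup (V → G) :=
    { carrier := {x | x u = x v}
      mul_mem' := fun {x y} hx hy => by
        have hx' : x u = x v := hx
        have hy' : y u = y v := hy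
        show x u * y u = x v * y v
        rw [hx', hy']
      one_mem' := rfl
      inv_mem' := fun {x} hx => by
        have hx' : x u = x v := hx
        show (x u)⁻¹ = (x v)⁻¹
        rw [hx'] }
  have hK : graphPower G Γ ≤ K := by
    unfold graphPower
    rw [Subgroup.closure_le]
    rintro _ ⟨g, w, rfl⟩
    show gpow g (nbhd Γ w) u = gpow g (nbhd Γ w) v
    unfold gpow
    have : u ∈ nbhd Γ w ↔ v ∈ nbhd Γ w := by
      rw [mem_nbhd_comm, huv, mem_nbhd_comm]
    by_cases hu : u ∈ nbhd Γ w
    · rw [if_pos hu, if_pos (this.1 hu)]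
    · rw [if_neg hu, if_neg (fun h => hu (this.2 h))]
  have hx : (Pi.mulSingle u ⁅a, b⁆ : V → G) ∈ K := by
    apply hK
    apply h
    rw [Subgroup.mem_pi]
    intro w _
    by_cases hw : w = u
    · subst hw
      rw [Pi.mulSingle_eq_same, commutator_def]
      exact Subgroup.commutator_mem_commutator (Subgroup.mem_top _) (Subgroup.mem_top _)
    · rw [Pi.mulSingle_eq_of_ne hw]
      exact Subgroup.one_mem _
  have hx' : (Pi.mulSingle u ⁅a, b⁆ : V → G) u = (Pi.mulSingle u ⁅a, b⁆ : V → G) v := hx
  rw [Pi.mulSingle_eq_same, Pi.mulSingle_eq_of_ne (fun h => hne h.symm)] at hx'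
  exact hc hx'

/-! ### The positive direction -/

section positive

variable {F : Type} [Field F] {V : Type} [Fintype V] [DecidableEq V]

open Aff

theorem isRA_aff {l : Fˣ} (hl : l ≠ 1) {Γ : SimpleGraph V}
    (htf : ∀ u v, nbhd Γ u = nbhd Γ v → u = v) : IsRA (Aff F) Γ := by
  have hl' : (l : F) - 1 ≠ 0 := by
    rw [sub_ne_zero]
    intro h1
    exact hl (Units.ext h1)
  have hgen : ∀ (g : Aff F) (v : V), gpow g (nbhd Γ v) ∈ graphPower (Aff F) Γ := fun g v =>
    Subgroup.subset_closure ⟨g, v, rfl⟩
  have hinter : ∀ (S : Set V), (∀ t : F, gpow (tr t) S ∈ graphPower (Aff F) Γ) → ∀ (v : V) (t : F),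
      gpow (tr t) (nbhd Γ v ∩ S) ∈ graphPower (Aff F) Γ := by
    intro S hS v t
    have h1 : tr t = ⁅(⟨l, 0⟩ : Aff F), tr (t / ((l : F) - 1))⁆ := by
      rw [comm_tr, mul_div_cancel₀ _ hl']
    rw [h1, ← gpow_comm]
    rw [commutatorElement_def]
    exact Subgroup.mul_mem _ (Subgroup.mul_mem _ (Subgroup.mul_mem _ (hgen _ v) (hS _))
      (Subgroup.inv_mem _ (hgen _ v))) (Subgroup.inv_mem _ (hS _))
  have hmain : ∀ (u : V) (s : Finset V) (t : F),
      gpow (tr t) {w | w ∈ nbhd Γ u ∧ ∀ v ∈ s, (w ∈ nbhd Γ v ↔ u ∈ nbhd Γ v)} ∈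
        graphPower (Aff F) Γ := by
    intro u s
    induction s using Finset.induction_on with
    | empty =>
      intro t
      have : {w | w ∈ nbhd Γ u ∧ ∀ v ∈ (∅ : Finset V), (w ∈ nbhd Γ v ↔ u ∈ nbhd Γ v)} = nbhd Γ u := by
        ext w; simp
      rw [this]
      exact hgen _ _
    | insert x s hx ih =>
      intro t
      by_cases hu : u ∈ nbhd Γ x
      · have : {w | w ∈ nbhd Γ u ∧ ∀ v ∈ insert x s, (w ∈ nbhd Γ v ↔ u ∈ nbhd Γ v)} =
            nbhd Γ x ∩ {w | w ∈ nbhd Γ u ∧ ∀ v ∈ s, (w ∈ nbhd Γ v ↔ u ∈ nbhd Γ v)} := by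
          ext w
          simp only [Set.mem_ofPred_eq, Finset.forall_mem_insert, Set.mem_inter_iff, hu, iff_true]
          tauto
        rw [this]
        exact hinter _ ih x t
      · have : {w | w ∈ nbhd Γ u ∧ ∀ v ∈ insert x s, (w ∈ nbhd Γ v ↔ u ∈ nbhd Γ v)} =
            {w | w ∈ nbhd Γ u ∧ ∀ v ∈ s, (w ∈ nbhd Γ v ↔ u ∈ nbhd Γ v)} \ nbhd Γ x := by
          ext w
          simp only [Set.mem_ofPred_eq, Finset.forall_mem_insert, Set.mem_sdiff, hu, iff_false]
          tauto
        rw [this, ← gpow_inter_diff, Set.inter_comm]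
        refine Subgroup.mul_mem _ (ih t) ?_
        have h2 : (tr t)⁻¹ = tr (-t) := by
          rw [inv_eq_iff_mul_eq_one, ← tr_add, add_neg_cancel, tr_zero]
        rw [h2]
        exact hinter _ ih x _
  intro y hy
  rw [Subgroup.mem_pi] at hy
  apply Subgroup.pi_mem_of_mulSingle_mem
  intro u
  have hyu : y u = tr (y u).b := eq_tr ((mem_commutator_iff hl _).1 (hy u trivial))
  have h1 := hmain u Finset.univ (y u).b
  have h2 : {w | w ∈ nbhd Γ u ∧ ∀ v ∈ Finset.univ, (w ∈ nbhd Γ v ↔ u ∈ nbhd Γ v)} = {u} := by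
    ext w
    simp only [Set.mem_ofPred_eq, Finset.mem_univ, forall_true_left, Set.mem_singleton_iff]
    constructor
    · rintro ⟨_, h3⟩
      apply htf
      ext v
      rw [mem_nbhd_comm, mem_nbhd_comm Γ v u]
      exact h3 v
    · rintro rfl
      exact ⟨self_mem_nbhd _ _, fun _ => Iff.rfl⟩
  rw [h2] at h1
  have h3 : (Pi.mulSingle u (y u) : V → Aff F) = gpow (tr (y u).b) {u} := by
    funext w
    unfold gpow
    by_cases hw : w = u
    · subst hw
      rw [Pi.mulSingle_eq_same, if_pos (Set.mem_singleton w)]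
      exact hyu
    · rw [Pi.mulSingle_eq_of_ne hw, if_neg (fun h => hw (Set.mem_singleton_iff.1 h))]
  rw [h3]
  exact h1

/-- The embedding of `F ^ V` in `Aff(F) ^ V` as the group of translations. -/
def Phi : Multiplicative (V → F) →* (V → Aff F) where
  toFun w := fun v => tr (Multiplicative.toAdd w v)
  map_one' := rfl
  map_mul' x y := by
    funext v
    exact tr_add _ _

theorem Phi_injective : Function.Injective (Phi : Multiplicative (V → F) →* (V → Aff F)) := by
  intro x y h
  apply Multiplicative.toAdd.injective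
  funext v
  exact tr_injective (congrFun h v)

/-- The RA matrix over `F`. -/
noncomputable def CF (F : Type) [Field F] (Γ : SimpleGraph V) : Matrix (V × V) V F :=
  (raMatrix Γ).map (Int.castRingHom F)

/-- The row space of the RA matrix over `F`. -/
noncomputable def W (F : Type) [Field F] (Γ : SimpleGraph V) : Submodule F (V → F) :=
  Submodule.span F (Set.range (CF F Γ).row)

theorem Phi_row (Γ : SimpleGraph V) (t : F) (p : V × V) :
    Phi (Multiplicative.ofAdd (t • (CF F Γ).row p)) = gpow (tr t) (nbhd Γ p.1 ∩ nbhd Γ p.2) := by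
  funext w
  show tr (t • (CF F Γ p w)) = _
  unfold CF raMatrix gpow
  by_cases hw : w ∈ nbhd Γ p.1 ∩ nbhd Γ p.2
  · simp only [Matrix.map_apply, Matrix.of_apply, if_pos hw, map_one, smul_eq_mul, mul_one]
  · simp only [Matrix.map_apply, Matrix.of_apply, if_neg hw, map_zero, smul_eq_mul, mul_zero]
    exact tr_zero

/-- The row space as a subgroup. -/
noncomputable def W' (F : Type) [Field F] (Γ : SimpleGraph V) :
    Subgroup (Multiplicative (V → F)) :=
  AddSubgroup.toSubgroup (W F Γ).toAddSubgroup

theorem mem_W' (Γ : SimpleGraph V) (x : Multiplicative (V → F)) :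
    x ∈ W' F Γ ↔ Multiplicative.toAdd x ∈ W F Γ := Iff.rfl

theorem commB_eq {l : Fˣ} (hl : l ≠ 1) (Γ : SimpleGraph V) :
    commB (Aff F) Γ = (W' F Γ).map Phi := by
  have hl' : (l : F) - 1 ≠ 0 := by
    rw [sub_ne_zero]
    intro h1
    exact hl (Units.ext h1)
  apply le_antisymm
  · unfold commB
    rw [Subgroup.closure_le]
    rintro _ ⟨g, h, v, w, rfl⟩
    rw [gpow_comm, eq_tr (comm_a g h)]
    refine ⟨Multiplicative.ofAdd ((⁅g, h⁆).b • (CF F Γ).row (v, w)), ?_, Phi_row Γ _ _⟩
    exact (W F Γ).smul_mem _ (Submodule.subset_span ⟨_, rfl⟩)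
  · rintro _ ⟨y, hy, rfl⟩
    have hy' : Multiplicative.toAdd y ∈ W F Γ := hy
    have key : ∀ z ∈ W F Γ, ∀ t : F, Phi (Multiplicative.ofAdd (t • z)) ∈ commB (Aff F) Γ := by
      intro z hz
      unfold W at hz
      induction hz using Submodule.span_induction with
      | mem x hx =>
        obtain ⟨p, rfl⟩ := hx
        intro t
        rw [Phi_row]
        have h1 : tr t = ⁅(⟨l, 0⟩ : Aff F), tr (t / ((l : F) - 1))⁆ := by
          rw [comm_tr, mul_div_cancel₀ _ hl']
        rw [h1, ← gpow_comm]
        exact Subgroup.subset_closure ⟨_, _, _, _, rfl⟩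
      | zero =>
        intro t
        rw [smul_zero, ofAdd_zero, map_one]
        exact Subgroup.one_mem _
      | add x y _ _ hx hy =>
        intro t
        rw [smul_add, ofAdd_add, map_mul]
        exact Subgroup.mul_mem _ (hx t) (hy t)
      | smul a x _ hx =>
        intro t
        rw [smul_smul]
        exact hx _
    have := key _ hy' 1
    rw [one_smul] at this
    exact this

/-- The row space as a group, additively and multiplicatively. -/
def WEquiv (Γ : SimpleGraph V) : W' F Γ ≃* Multiplicative (W F Γ) where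
  toFun x := Multiplicative.ofAdd ⟨Multiplicative.toAdd x.1, x.2⟩
  invFun x := ⟨Multiplicative.ofAdd (Multiplicative.toAdd x).1, (Multiplicative.toAdd x).2⟩
  left_inv _ := rfl
  right_inv _ := rfl
  map_mul' _ _ := rfl

/-- The commutator subgroup of the affine group. -/
def commEquiv {l : Fˣ} (hl : l ≠ 1) : Multiplicative F ≃* commutator (Aff F) where
  toFun t := ⟨tr (Multiplicative.toAdd t), (mem_commutator_iff hl _).2 rfl⟩
  invFun g := Multiplicative.ofAdd g.1.b
  left_inv _ := rfl
  right_inv g := Subtype.ext (eq_tr ((mem_commutator_iff hl _).1 g.2)).symm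
  map_mul' _ _ := Subtype.ext (tr_add _ _)

theorem finrank_W {Γ : SimpleGraph V} {d : Fin (Fintype.card V) → ℕ}
    (hd : IsElementaryDivisors (raMatrix Γ) d) (hF : ∀ i, ((d i : ℕ) : F) ≠ 0 ↔ d i = 1) :
    Module.finrank F (W F Γ) = Fintype.card V - (Finset.univ.filter fun i => d i ≠ 1).card := by
  classical
  obtain ⟨_, e, f, P, Q, hP, hQ, hPQ⟩ := hd
  unfold W
  rw [← Matrix.rank_eq_finrank_span_row]
  have h1 : (P.map (Int.castRingHom F)) * CF F Γ * (Q.map (Int.castRingHom F)) =
      Matrix.of fun r v => if r = f v then ((d (e v) : ℕ) : F) else 0 := by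
    unfold CF
    rw [← Matrix.map_mul, ← Matrix.map_mul, hPQ]
    ext r v
    simp only [Matrix.map_apply, Matrix.of_apply]
    split_ifs <;> simp
  have hP' : IsUnit (P.map (Int.castRingHom F)).det := by
    have := hP.map (Int.castRingHom F)
    rwa [RingHom.map_det] at this
  have hQ' : IsUnit (Q.map (Int.castRingHom F)).det := by
    have := hQ.map (Int.castRingHom F)
    rwa [RingHom.map_det] at this
  have h2 := congrArg Matrix.rank h1
  rw [Matrix.rank_mul_eq_left_of_isUnit_det _ _ hQ', Matrix.rank_mul_eq_right_of_isUnit_det _ _ hP'] at h2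
  rw [h2]
  have h3 : (Matrix.of fun (r : V × V) v => if r = f v then ((d (e v) : ℕ) : F) else 0).rank =
      (Matrix.diagonal fun v => ((d (e v) : ℕ) : F)).rank := by
    rw [Matrix.rank_eq_finrank_span_row, Matrix.rank_eq_finrank_span_row]
    suffices hspan : Submodule.span F (Set.range
        (Matrix.of fun (r : V × V) v => if r = f v then ((d (e v) : ℕ) : F) else 0).row) =
        Submodule.span F (Set.range (Matrix.diagonal fun v => ((d (e v) : ℕ) : F)).row) by
      rw [hspan]
    apply le_antisymm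
    · rw [Submodule.span_le]
      rintro _ ⟨r, rfl⟩
      by_cases hr : ∃ v, r = f v
      · obtain ⟨v, rfl⟩ := hr
        apply Submodule.subset_span
        refine ⟨v, ?_⟩
        funext w
        show Matrix.diagonal (fun v => ((d (e v) : ℕ) : F)) v w = if f v = f w then ((d (e w) : ℕ) : F) else 0
        by_cases hvw : v = w
        · subst hvw
          rw [Matrix.diagonal_apply_eq, if_pos rfl]
        · rw [Matrix.diagonal_apply_ne _ hvw, if_neg (fun h => hvw (f.injective h))]
      · have : (Matrix.of fun (r : V × V) v => if r = f v then ((d (e v) : ℕ) : F) else 0).row r = 0 := by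
          funext w
          show (if r = f w then ((d (e w) : ℕ) : F) else 0) = 0
          rw [if_neg (fun h => hr ⟨w, h⟩)]
        rw [this]
        exact Submodule.zero_mem _
    · rw [Submodule.span_le]
      rintro _ ⟨v, rfl⟩
      apply Submodule.subset_span
      refine ⟨f v, ?_⟩
      funext w
      show (if f v = f w then ((d (e w) : ℕ) : F) else 0) = Matrix.diagonal (fun v => ((d (e v) : ℕ) : F)) v w
      by_cases hvw : v = w
      · subst hvw
        rw [Matrix.diagonal_apply_eq, if_pos rfl]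
      · rw [Matrix.diagonal_apply_ne _ hvw, if_neg (fun h => hvw (f.injective h))]
  rw [h3, Matrix.rank_diagonal]
  have h4 : Fintype.card {v : V // ((d (e v) : ℕ) : F) ≠ 0} =
      (Finset.univ.filter fun i : Fin (Fintype.card V) => d i = 1).card := by
    rw [← Fintype.card_subtype]
    apply Fintype.card_congr
    exact e.subtypeEquiv (fun v => hF (e v))
  rw [h4]
  have h5 := Finset.card_filter_add_card_filter_not
    (s := (Finset.univ : Finset (Fin (Fintype.card V)))) (fun i => d i = 1)
  rw [Finset.card_univ, Fintype.card_fin] at h5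
  have h6 : (Finset.univ.filter fun i : Fin (Fintype.card V) => ¬ d i = 1).card =
      (Finset.univ.filter fun i : Fin (Fintype.card V) => d i ≠ 1).card := rfl
  omega

end positive

/-- Let `Γ` be a finite graph on `n` vertices whose RA matrix has exactly `k` nontrivial
elementary divisors. A finite nonabelian group `G` such that `Comm_b(G, Γ) ≅ [G, G] ^ (n - k)` and
`Γ` is `G`-RA exists if and only if no two distinct vertices have the same closed neighbourhood. -/
theorem result (V : Type) [Fintype V] [DecidableEq V] (Γ : SimpleGraph V)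
    (d : Fin (Fintype.card V) → ℕ) (hd : IsElementaryDivisors (raMatrix Γ) d)
    (k : ℕ) (hk : k = (Finset.univ.filter fun i => d i ≠ 1).card) :
    (∃ (G : Type) (_ : Group G), Finite G ∧ (¬ ∀ a b : G, a * b = b * a) ∧
      Nonempty (commB G Γ ≃* (Fin (Fintype.card V - k) → commutator G)) ∧ IsRA G Γ) ↔
    ∀ u v, nbhd Γ u = nbhd Γ v → u = v := by
  constructor
  · rintro ⟨G, _, _, hna, _, hra⟩ u v huv
    exact twin_free_of_RA hna hra u v huv
  · intro htf
    obtain ⟨p, hp, hpd⟩ : ∃ p : ℕ, p.Prime ∧ ∀ i, d i ≠ 1 → p ∣ d i := by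
      by_cases hex : ∃ i, d i ≠ 1
      · classical
        obtain ⟨i, hi, hmin⟩ : ∃ i, d i ≠ 1 ∧ ∀ j, d j ≠ 1 → i ≤ j := by
          have hne : (Finset.univ.filter fun i => d i ≠ 1).Nonempty := by
            obtain ⟨i, hi⟩ := hex
            exact ⟨i, by simpa using hi⟩
          refine ⟨(Finset.univ.filter fun i => d i ≠ 1).min' hne, ?_, ?_⟩
          · have := Finset.min'_mem _ hne
            simpa using this
          · intro j hj
            exact Finset.min'_le _ _ (by simpa using hj)
        obtain ⟨p, hp, hpi⟩ := Nat.exists_prime_and_dvd hi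
        exact ⟨p, hp, fun j hj => hpi.trans (hd.1 i j (hmin j hj))⟩
      · exact ⟨2, Nat.prime_two, fun i hi => absurd ⟨i, hi⟩ hex⟩
    have : Fact p.Prime := ⟨hp⟩
    let F : Type := GaloisField p 2
    have hcard : Nat.card F = p ^ 2 := GaloisField.card p 2 (by norm_num)
    have hfin : Finite F := Nat.finite_of_card_ne_zero (by rw [hcard]; exact pow_ne_zero _ hp.ne_zero)
    have hchar : CharP F p := inferInstanceAs (CharP (GaloisField p 2) p)
    have : Fintype F := Fintype.ofFinite F
    obtain ⟨l, hl⟩ : ∃ l : Fˣ, l ≠ 1 := by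
      classical
      have h1 : Fintype.card Fˣ = Fintype.card F - 1 := Fintype.card_units F
      have h2 : 1 < Fintype.card Fˣ := by
        rw [h1, ← Nat.card_eq_fintype_card, hcard]
        have := Nat.pow_le_pow_left hp.two_le 2
        omega
      exact Fintype.exists_ne_of_one_lt_card h2 1
    have hF : ∀ i, ((d i : ℕ) : F) ≠ 0 ↔ d i = 1 := by
      intro i
      constructor
      · intro h
        by_contra h1
        exact h ((CharP.cast_eq_zero_iff F p _).2 (hpd i h1))
      · intro h
        rw [h, Nat.cast_one]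
        exact one_ne_zero
    refine ⟨Aff F, inferInstance, inferInstance, ?_, ?_, isRA_aff hl htf⟩
    · intro h
      have h1 := h ⟨l, 0⟩ (Aff.tr 1)
      have h2 := congrArg Aff.b h1
      rw [Aff.mul_b, Aff.mul_b] at h2
      have h3 : (0 : F) + (l : F) * 1 = 1 + ((1 : Fˣ) : F) * 0 := h2
      rw [zero_add, mul_one, mul_zero, add_zero] at h3
      exact hl (Units.ext h3)
    · have hrank := finrank_W (F := F) hd hF
      rw [← hk] at hrank
      have e1 : W F Γ ≃ₗ[F] (Fin (Fintype.card V - k) → F) :=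
        LinearEquiv.ofFinrankEq _ _ (by rw [hrank, Module.finrank_fin_fun])
      have e2 : Multiplicative (W F Γ) ≃* Multiplicative (Fin (Fintype.card V - k) → F) :=
        AddEquiv.toMultiplicative e1.toAddEquiv
      have e3 : Multiplicative (Fin (Fintype.card V - k) → F) ≃*
          (Fin (Fintype.card V - k) → commutator (Aff F)) :=
        { toFun := fun x i => commEquiv hl (Multiplicative.ofAdd (Multiplicative.toAdd x i))
          invFun := fun y => Multiplicative.ofAdd fun i =>
            Multiplicative.toAdd ((commEquiv hl).symm (y i))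
          left_inv := fun x => rfl
          right_inv := fun y => by
            funext i
            exact (commEquiv hl).apply_symm_apply (y i)
          map_mul' := fun x y => by
            funext i
            exact map_mul (commEquiv hl) _ _ }
      rw [commB_eq hl Γ]
      exact ⟨(((W' F Γ).equivMapOfInjective Phi Phi_injective).symm.trans (WEquiv Γ)).trans
        (e2.trans e3)⟩

end Pool.Agent.Results.MP_8f3806_al.TwinFreeGap
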